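import Pool.Agent.Helper49.CopiesFinal

/-!
# `A(n; L) → ∞` for many disconnected graphs `L`
-/

open Finset Fintype Filter SimpleGraph Pool.Agent.Helper49.Copies

namespace Pool.Agent.Results.MP_ebbdc0_co.DisconnectedCriteria

/-- Let `L` be a disconnected graph with `k` components and chromatic number `r + 1 ≥ 2`. Then
`A(n; L) → ∞` if one of the following holds:
* some proper `(r + 1)`-colouring of `L` has a colour class with at most `2k - 2` vertices;
* `L` contains a cycle, and some component of `L` is a tree, or `L` is bipartite and every component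
  of `L` has a vertex whose deletion leaves a forest;
* for some component `J` of `L`: deleting at most one edge from `J` makes it `r`-colourable, or `J`
  is a path, or `J` is a tree and every colour class of a proper 2-colouring of `J` has fewer than
  `k` vertices, or every colour class of a proper `(r+1)`-colouring of `J` has at least `σ` vertices
  and `ex(n; J) ≤ (1 - 1/r) n²/2 + c n` for all large `n`, where `c < (σ + k - 2)/r`. -/
theorem result {W : Type} [Fintype W] (L : SimpleGraph W) (r : ℕ) (hr : 1 ≤ r)
    (hcol : L.Colorable (r + 1)) (hnc : ¬ L.Colorable r) (hcon : ¬ L.Connected)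
    (h : (∃ (C : L.Coloring (Fin (r + 1))) (x : Fin (r + 1)),
        (C.colorClass x).ncard + 2 ≤ 2 * Nat.card L.ConnectedComponent) ∨
      (¬ L.IsAcyclic ∧ ((∃ i : L.ConnectedComponent, (L.induce i.supp).IsAcyclic) ∨
        (L.Colorable 2 ∧ ∀ i : L.ConnectedComponent,
          ∃ v ∈ i.supp, (L.induce (i.supp \ {v})).IsAcyclic))) ∨
      (∃ i : L.ConnectedComponent,
        (∃ e, ((L.induce i.supp).deleteEdges {e}).Colorable r) ∨
        (∃ ℓ, Nonempty (L.induce i.supp ≃g pathGraph ℓ)) ∨
        ((L.induce i.supp).IsAcyclic ∧ ∀ C : (L.induce i.supp).Coloring (Fin 2),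
          (C.colorClass 1).ncard < Nat.card L.ConnectedComponent) ∨
        (∃ (σ : ℕ) (c : ℝ), (∀ C : (L.induce i.supp).Coloring (Fin (r + 1)),
            σ ≤ (C.colorClass 0).ncard) ∧
          c < ((σ : ℝ) + Nat.card L.ConnectedComponent - 2) / r ∧
          ∀ᶠ n : ℕ in atTop, (extremalNumber n (L.induce i.supp) : ℝ) ≤
            (1 - 1 / (r : ℝ)) * n ^ 2 / 2 + c * n))) :
    Tendsto (fun n => minCopies n L) atTop atTop := by
  rcases h with ⟨C, x, hC⟩ | ⟨hcyc, h⟩ | ⟨i, h⟩
  · exact tendsto_class L r hr hnc C x hC
  · exact tendsto_cyclic L hcon hcyc h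
  · exact tendsto_component L r hr hcol hnc hcon i h

end Pool.Agent.Results.MP_ebbdc0_co.DisconnectedCriteria
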